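import Pool.Agent.T9h20.TA.Spec

set_option autoImplicit false

open MeasureTheory Set
open scoped ENNReal NNReal

namespace Pool.Agent.T9h48.TA

open Pool.Agent.T9h20.TA

theorem meas_proj {Ω : Type} [MetricSpace Ω] [ProperSpace Ω] [MeasurableSpace Ω]
    [BorelSpace Ω] (K U : Set (Ω × ℝ)) (hK : IsClosed K) (hU : IsOpen U) :
    MeasurableSet {w : Ω | ∃ y : ℝ, (w, y) ∈ K ∧ (w, y) ∈ U} := by
  obtain ⟨F, hF, -, hFU, -⟩ := hU.exists_iUnion_isClosed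
  have h1 : {w : Ω | ∃ y : ℝ, (w, y) ∈ K ∧ (w, y) ∈ U} =
      ⋃ n : ℕ, ⋃ m : ℕ, Prod.fst '' (compactCovering (Ω × ℝ) m ∩ (K ∩ F n)) := by
    ext w
    simp only [mem_setOf_eq, mem_iUnion, mem_image, mem_inter_iff]
    constructor
    · rintro ⟨y, hy1, hy2⟩
      rw [← hFU] at hy2
      obtain ⟨n, hn⟩ := mem_iUnion.mp hy2
      have h3 : (w, y) ∈ ⋃ m, compactCovering (Ω × ℝ) m := by
        rw [iUnion_compactCovering]; exact mem_univ _
      obtain ⟨m, hm⟩ := mem_iUnion.mp h3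
      exact ⟨n, m, (w, y), ⟨hm, hy1, hn⟩, rfl⟩
    · rintro ⟨n, m, ⟨w', y⟩, ⟨-, h2, h3⟩, rfl⟩
      exact ⟨y, h2, by rw [← hFU]; exact mem_iUnion.mpr ⟨n, h3⟩⟩
  rw [h1]
  refine MeasurableSet.iUnion fun n => MeasurableSet.iUnion fun m => ?_
  have hc : IsCompact (compactCovering (Ω × ℝ) m ∩ (K ∩ F n)) :=
    (isCompact_compactCovering (Ω × ℝ) m).inter_right (hK.inter (hF n))
  exact (hc.image continuous_fst).isClosed.measurableSet

theorem floor_sep {T : Set ℝ} (hT : T.Finite) :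
    ∃ n : ℕ, Set.InjOn (fun y : ℝ => ⌊(n : ℝ) * y⌋) T := by
  have h1 : ∀ p ∈ T ×ˢ T, ∀ᶠ n : ℕ in Filter.atTop, ⌊(n : ℝ) * p.1⌋ = ⌊(n : ℝ) * p.2⌋ → p.1 = p.2 := by
    rintro ⟨x, y⟩ -
    by_cases hxy : x = y
    · exact Filter.Eventually.of_forall fun n _ => hxy
    · have hpos : 0 < |x - y| := abs_pos.mpr (sub_ne_zero.mpr hxy)
      obtain ⟨N, hN⟩ := exists_nat_gt (1 / |x - y|)
      refine Filter.eventually_atTop.mpr ⟨N, fun n hn hfl => ?_⟩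
      exfalso
      have h2 := Int.abs_sub_lt_one_of_floor_eq_floor hfl
      simp only at h2
      rw [← mul_sub, abs_mul, abs_of_nonneg (Nat.cast_nonneg n)] at h2
      have h3 : 1 < (N : ℝ) * |x - y| := by
        rw [div_lt_iff₀ hpos] at hN; exact hN
      have h4 : (N : ℝ) * |x - y| ≤ (n : ℝ) * |x - y| :=
        mul_le_mul_of_nonneg_right (by exact_mod_cast hn) hpos.le
      linarith
  have h2 : ∀ᶠ n : ℕ in Filter.atTop, ∀ p ∈ T ×ˢ T,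
      ⌊(n : ℝ) * p.1⌋ = ⌊(n : ℝ) * p.2⌋ → p.1 = p.2 :=
    (Filter.eventually_all_finite (hT.prod hT)).mpr h1
  obtain ⟨n, hn⟩ := h2.exists
  exact ⟨n, fun x hx y hy hxy => hn (x, y) ⟨hx, hy⟩ hxy⟩

theorem encard_eq_iSup (S : Set ℝ) :
    ((S.encard : ℕ∞) : ℝ≥0∞) =
      ⨆ n : ℕ, ((((fun y : ℝ => ⌊(n : ℝ) * y⌋) '' S).encard : ℕ∞) : ℝ≥0∞) := by
  apply le_antisymm
  · have key : ∀ T : Set ℝ, T.Finite → T ⊆ S → ((T.encard : ℕ∞) : ℝ≥0∞) ≤
        ⨆ n : ℕ, ((((fun y : ℝ => ⌊(n : ℝ) * y⌋) '' S).encard : ℕ∞) : ℝ≥0∞) := by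
      intro T hT hTS
      obtain ⟨n, hn⟩ := floor_sep hT
      refine le_trans ?_ (le_iSup _ n)
      rw [ENat.toENNReal_le, ← hn.encard_image]
      exact Set.encard_le_encard (Set.image_mono hTS)
    by_cases hS : S.Finite
    · exact key S hS subset_rfl
    · have h1 : S.encard = ⊤ := Set.encard_eq_top_iff.mpr hS
      rw [h1, ENat.toENNReal_top, ← ENNReal.iSup_natCast]
      refine iSup_le fun k => ?_
      obtain ⟨T, hT1, hT2⟩ := Set.exists_subset_encard_eq (s := S) (k := (k : ℕ∞)) (by rw [h1]; exact le_top)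
      have hfin : T.Finite := Set.finite_of_encard_eq_coe hT2
      have := key T hfin hT1
      rwa [hT2, ENat.toENNReal_coe] at this
  · refine iSup_le fun n => ?_
    rw [ENat.toENNReal_le]
    exact Set.encard_image_le _ _

theorem sMeas : SMeas := by
  intro Ω _ _ _ _ K U hK hU
  have h0 : (fun w : Ω => (({y : ℝ | (w, y) ∈ K ∧ (w, y) ∈ U}.encard : ℕ∞) : ℝ≥0∞)) =
      fun w => ⨆ n : ℕ, ∑' j : ℤ,
        ({w : Ω | ∃ y : ℝ, (w, y) ∈ K ∩ {p : Ω × ℝ | (j : ℝ) ≤ (n : ℝ) * p.2} ∧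
          (w, y) ∈ U ∩ {p : Ω × ℝ | (n : ℝ) * p.2 < (j : ℝ) + 1}}).indicator
            (fun _ => (1 : ℝ≥0∞)) w := by
    funext w
    rw [encard_eq_iSup]
    congr 1
    funext n
    rw [← ENNReal.tsum_set_one, tsum_subtype _ (fun _ => (1 : ℝ≥0∞))]
    congr 1
    funext j
    by_cases hj : j ∈ (fun y : ℝ => ⌊(n : ℝ) * y⌋) '' {y : ℝ | (w, y) ∈ K ∧ (w, y) ∈ U}
    · rw [indicator_of_mem hj, indicator_of_mem]
      obtain ⟨y, ⟨hy1, hy2⟩, hy3⟩ := hj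
      have hy4 := Int.floor_eq_iff.mp hy3
      exact ⟨y, ⟨hy1, hy4.1⟩, ⟨hy2, hy4.2⟩⟩
    · rw [indicator_of_notMem hj, indicator_of_notMem]
      rintro ⟨y, ⟨hy1, hy4⟩, ⟨hy2, hy5⟩⟩
      exact hj ⟨y, ⟨hy1, hy2⟩, Int.floor_eq_iff.mpr ⟨hy4, hy5⟩⟩
  rw [h0]
  refine Measurable.iSup fun n => Measurable.ennreal_tsum fun j => ?_
  refine Measurable.indicator measurable_const (meas_proj _ _ ?_ ?_)
  · exact hK.inter (isClosed_le continuous_const (by fun_prop))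
  · exact hU.inter (isOpen_lt (by fun_prop) continuous_const)

end Pool.Agent.T9h48.TA
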